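import Pool.Agent.Helper3.WT.Defs

/-! Project WA (MP_12a1af_nt, Q2, negated side): the trade-off `r_A(n) ≤ (log n)^(1-2α+o(1))`,
`|A ∩ [0,x)| ≥ √x exp(-(log x)^(α+o(1)))`, `0 < α ≤ 1/2`. Definitions. -/

set_option autoImplicit false

namespace Pool.Agent.Helper3.WA

open Finset
open Pool.Agent.Helper48.ET
open Pool.Agent.Helper3.WT (rp GG P0)

section codes

variable {p : ℕ} [Fact p.Prime]

/-- words of length `n + 1`: a code word of length `n` (all levels `≥ 0`), then a last digit with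
its own twisted square -/
structure LW (C n : ℕ) (θ : Par p) (x z : ℕ → ZMod p) : Prop where
  xs : ∀ u, n < u → x u = 0
  zs : ∀ u, n < u → z u = 0
  rel : ∀ i, BlockRel C (2 * n + 1) θ x z i
  top : z n = θ.lam * x n ^ 2 + ∑ v ∈ range n, θ.tau 0 2 v * x v

/-- words of length `n + 1` followed by one free digit -/
structure PW (C n : ℕ) (θ : Par p) (x z : ℕ → ZMod p) : Prop where
  xs : ∀ u, n + 1 < u → x u = 0
  zs : ∀ u, n + 1 < u → z u = 0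
  rel : ∀ i, BlockRel C (2 * n + 1) θ x z i
  top : z n = θ.lam * x n ^ 2 + ∑ v ∈ range n, θ.tau 0 2 v * x v

/-- `x`-parts of the solutions of `(x, z) + (x', z') = (t, w)`, `P x z`, `L x' z'` -/
def SolG (P L : (ℕ → ZMod p) → (ℕ → ZMod p) → Prop) (t w : ℕ → ZMod p) : Set (ℕ → ZMod p) :=
  {x | ∃ z, P x z ∧ L (t - x) (w - z)}

/-- the integers of the words of length `n + 1` -/
def Wd (C n : ℕ) (θ : Par p) : Set ℕ := {a | ∃ x z, LW C n θ x z ∧ a = enc (n + 1) x z}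

/-- a word of length `n + 1` with an element of `R` on top of it -/
def WR (C n : ℕ) (θ : Par p) (R : Set ℕ) : Set ℕ :=
  {a | ∃ x z, LW C n θ x z ∧ ∃ r ∈ R, a = enc (n + 1) x z + (2 * p) ^ (2 * (n + 1)) * r}

/-- words of length `n + 1` whose lowest digit lies in `[ℓ, ℓ + β)` -/
def WdL (C n : ℕ) (θ : Par p) (β ℓ : ℕ) : Set ℕ :=
  {a | ∃ x z, LW C n θ x z ∧ (ℓ ≤ (x 0).val ∧ (x 0).val < ℓ + β) ∧ a = enc (n + 1) x z}

/-- the same with an element of `R` on top -/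
def WRL (C n : ℕ) (θ : Par p) (R : Set ℕ) (β ℓ : ℕ) : Set ℕ :=
  {a | ∃ x z, LW C n θ x z ∧ (ℓ ≤ (x 0).val ∧ (x 0).val < ℓ + β) ∧
    ∃ r ∈ R, a = enc (n + 1) x z + (2 * p) ^ (2 * (n + 1)) * r}

/-- the random set of partial top digits: digit pairs `a + 2p b`, `a, b < p` -/
structure RSet (p l H : ℕ) [Fact p.Prime] (R : Set ℕ) : Prop where
  form : ∀ r ∈ R, ∃ a b : ZMod p, r = a.val + 2 * p * b.val
  pos : ∀ r ∈ R, 0 < r
  RR : ∀ n, rp R R n ≤ H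
  RK : ∀ lam t w : ZMod p, lam ≠ 0 → {q : ZMod p × ZMod p | q.1.val + 2 * p * q.2.val ∈ R ∧
    w - q.2 = lam * (t - q.1) ^ 2}.ncard ≤ H
  size : ∀ y, 2 ^ (2 * l + 8) ≤ y → y ≤ (2 * p) ^ 2 →
    y ≤ (2 ^ (l + 3) * (R ∩ Set.Iio y).ncard) ^ 2

end codes

/-- number of words of length `N` with a label -/
def cw (p β N : ℕ) : ℕ := if N = 0 then 1 else β * p ^ (N - 1)

/-- a component: digits to the base `Q = 2p`, complete words `T` of length `M` (label `0`),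
words `S N` of length `N < M` (label `N`, for `N ≥ 1`) with a partial digit pair on top -/
structure CompA (p M G H β l : ℕ) (T : Set ℕ) (S : ℕ → Set ℕ) : Prop where
  two_le : 2 ≤ M
  beta_pos : 1 ≤ β
  lab_le : 2 * M * β ≤ p
  le_lab : p ≤ 4 * M * β
  G_pos : 1 ≤ G
  H_pos : 1 ≤ H
  T_lt : ∀ a ∈ T, 2 * a < (2 * p) ^ (2 * M)
  S_lt : ∀ N < M, ∀ a ∈ S N, 2 * a < (2 * p) ^ (2 * (N + 1))
  S_ge : ∀ N < M, ∀ a ∈ S N, (2 * p) ^ (2 * N) ≤ a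
  T_lab : ∀ a ∈ T, a % (2 * p) < β
  S_lab : ∀ N, 1 ≤ N → N < M → ∀ a ∈ S N, 2 * N * β ≤ a % (2 * p) ∧ a % (2 * p) < 2 * N * β + β
  TT : ∀ n, rp T T n ≤ G
  TS : ∀ N < M, ∀ n, rp T (S N) n ≤ G * H
  SS : ∀ N N', N' ≤ N → N < M → ∀ n, rp (S N) (S N') n ≤ G * H
  T_card : β * p ^ (M - 1) ≤ T.ncard
  S_card : ∀ N < M, ∀ y, 2 ^ (2 * l + 8) ≤ y → y ≤ (2 * p) ^ 2 →
    y * cw p β N ^ 2 ≤ (2 ^ (l + 3) * (S N ∩ Set.Iio ((2 * p) ^ (2 * N) * y)).ncard) ^ 2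

/-- the data of all components -/
structure SysA where
  p : ℕ → ℕ
  M : ℕ → ℕ
  G : ℕ → ℕ
  H : ℕ → ℕ
  β : ℕ → ℕ
  l : ℕ → ℕ
  T : ℕ → Set ℕ
  S : ℕ → ℕ → Set ℕ
  comp : ∀ k, CompA (p k) (M k) (G k) (H k) (β k) (l k) (T k) (S k)

namespace SysA

variable (σ : SysA)

/-- place value of component `k` -/
def W (k : ℕ) : ℕ := ∏ j ∈ range k, (2 * σ.p j) ^ (2 * σ.M j)

/-- sums of complete words of the components `< k` -/
def Low : ℕ → Set ℕ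
  | 0 => {0}
  | k + 1 => {n | ∃ l ∈ Low k, ∃ t ∈ σ.T k, n = l + σ.W k * t}

/-- the elements with top component `k` and word length `N` there -/
def Part (k N : ℕ) : Set ℕ := {n | ∃ l ∈ σ.Low k, ∃ s ∈ σ.S k N, n = l + σ.W k * s}

/-- the set -/
def A : Set ℕ := {n | ∃ k N, N < σ.M k ∧ n ∈ σ.Part k N}

/-- number of elements of `Low k` (lower bound) -/
def cl (k : ℕ) : ℕ := ∏ j ∈ range k, (σ.β j * σ.p j ^ (σ.M j - 1))

end SysA

/-- the sizes of the components: `j k` is the sequence of exponents (component `k` begins at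
`2 ^ j k` bits, up to a factor) -/
structure SizedA (α : ℝ) (σ : SysA) (j : ℕ → ℕ) : Prop where
  mono : ∀ k, j k < j (k + 1)
  lam : ∀ k, 4 ≤ ⌊α * j k⌋₊
  M_eq : ∀ k, σ.M k = 2 ^ (j (k + 1) - ⌈(1 - α) * j k⌉₊)
  p_gt : ∀ k, 2 ^ 2 ^ ⌈(1 - α) * j k⌉₊ < σ.p k
  p_le : ∀ k, σ.p k ≤ 2 ^ (2 ^ ⌈(1 - α) * j k⌉₊ + 1)
  l_eq : ∀ k, σ.l k = 2 ^ (⌊α * j k⌋₊ - 1)
  H_eq : ∀ k, σ.H k = 16 * (2 ^ ⌈(1 - α) * j k⌉₊ / 2 ^ (⌊α * j k⌋₊ - 1)) + 32

end Pool.Agent.Helper3.WA
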